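import Mathlib
import Pool.Agent.helper56.P2.SpecU

/-!
# MP_063734_an, row p2:UDET: the real determinant of a complex linear map of `ℂ × ℂ`
-/

set_option autoImplicit false

namespace Pool.Agent.P2U

open MeasureTheory Set Filter Topology Metric Complex
open scoped ENNReal ContDiff

theorem UDET : UDET_stmt := by
  intro A
  have h1 : (A.restrictScalars ℝ).det = LinearMap.det ((A : ℂ × ℂ →ₗ[ℂ] ℂ × ℂ).restrictScalars ℝ) := rfl
  rw [h1, LinearMap.det_restrictScalars, Algebra.norm_complex_apply, Complex.normSq_eq_norm_sq,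
    abs_of_nonneg (by positivity)]
  congr 2
  rw [← LinearMap.det_toMatrix (Module.Basis.finTwoProd ℂ), Matrix.det_fin_two]
  simp [LinearMap.toMatrix_apply]
  ring

end Pool.Agent.P2U
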