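import Pool.Agent.helper37.P2.SpecD

/-!
# MP_063734_an, row p2:DIAG: the diagonal sequence of near-maximal discs
-/

set_option autoImplicit false

open scoped ContDiff Topology
open MeasureTheory Filter Set Metric MvPolynomial Pool.Agent.helper37.QA

namespace Pool.Agent.P2

theorem DIAG (hVBL : VBL_stmt) : DIAG_stmt := by
  intro d f Us K hd hC
  obtain ⟨Λ1, Kb, hΛ, hKb, H⟩ := hVBL d f Us K hd hC
  refine ⟨Λ1, Kb, hΛ, hKb, ?_⟩
  intro κ hκ hκ1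
  obtain ⟨m0, J0, s0, h0, H⟩ := H κ hκ hκ1
  have hpos : ∀ J : ℕ, (0 : ℝ) < 1 / ((J : ℝ) + 1) := fun J => by positivity
  choose L N Z h1 h2 h3 h4 h5 h6 using fun J : ℕ => H J J J J (1 / ((J : ℝ) + 1)) (1 / ((J : ℝ) + 1)) (hpos J) (hpos J)
  refine ⟨L, N, Z, ⟨fun J => ⟨h1 J, h2 J, h3 J, h4 J, h5 J⟩, ?_⟩⟩
  intro ε hε
  refine ⟨m0 ε, s0 ε, (h0 ε hε).2, ?_⟩
  intro s m hs hs0 hm
  obtain ⟨k, hk⟩ := exists_nat_one_div_lt (lt_min hs hε)
  refine ⟨max (max (J0 ε) m) k, ?_⟩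
  intro J hJ n A hA1 hA2
  have hJ0 : J0 ε ≤ J := ((le_max_left _ _).trans (le_max_left _ _)).trans hJ
  have hJm : m ≤ J := ((le_max_right _ _).trans (le_max_left _ _)).trans hJ
  have hJk : k ≤ J := (le_max_right _ _).trans hJ
  have h7 : 1 / ((J : ℝ) + 1) ≤ 1 / ((k : ℝ) + 1) := by
    apply one_div_le_one_div_of_le (by positivity)
    have : (k : ℝ) ≤ J := by exact_mod_cast hJk
    linarith
  have h8 : 1 / ((J : ℝ) + 1) ≤ s := h7.trans (hk.le.trans (min_le_left _ _))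
  have h9 : 1 / ((J : ℝ) + 1) ≤ ε := h7.trans (hk.le.trans (min_le_right _ _))
  exact h6 J ε s h9 h8 hs0 hJ0 n A hA1 hA2 m hm hJm

end Pool.Agent.P2
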