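import Pool.Agent.helper83.P2.SpecV
import Pool.Agent.helper39.P2.SWE
import Pool.Agent.helper53.P2.INTA

/-! Project P2 (MP_063734_an), row VN0: the Newton potential. -/

set_option autoImplicit false

open scoped ContDiff Topology
open MeasureTheory Filter Set Metric MvPolynomial Pool.Agent.helper37.QA Pool.Agent.P2

namespace Pool.Agent.P2V

theorem VN0_log (r : ℝ) : IntegrableOn (fun w : ℂ => Real.log ‖w‖) (Metric.ball 0 r) := by
  have h := integrableOn_fun_norm_addHaar (μ := (volume : Measure ℂ)) (f := fun s : ℝ => Real.log s) (r := r)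
  rw [h]
  have h2 : Module.finrank ℝ ℂ - 1 = 1 := by
    rw [Complex.finrank_real_complex]
  rw [h2]
  refine Measure.integrableOn_of_bounded (M := 1 + r ^ 2) (by simp) ?_ ?_
  · exact ((measurable_id.pow_const 1).smul Real.measurable_log).aestronglyMeasurable
  · refine (ae_restrict_iff' measurableSet_Ioo).2 (Filter.Eventually.of_forall fun s hs => ?_)
    rw [pow_one, smul_eq_mul, norm_mul, Real.norm_eq_abs, Real.norm_eq_abs, abs_of_pos hs.1]
    rcases le_total s 1 with h1 | h1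
    · have h3 := Real.abs_log_mul_self_lt s hs.1 h1
      rw [abs_mul, abs_of_pos hs.1] at h3
      nlinarith [sq_nonneg r]
    · have h3 : 0 ≤ Real.log s := Real.log_nonneg h1
      rw [abs_of_nonneg h3]
      have h4 := Real.log_le_sub_one_of_pos hs.1
      nlinarith [hs.2]

theorem VN0_loc : LocallyIntegrable (fun w : ℂ => Real.log ‖w‖) volume := by
  intro x
  exact ⟨ball 0 (‖x‖ + 1), isOpen_ball.mem_nhds (by rw [mem_ball, dist_zero_right]; linarith),
    VN0_log _⟩

/-- primitive -/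
theorem VN0_prim (s : ℝ) : HasDerivAt (fun s : ℝ => -((1 / 4) * (1 + s ^ 2)⁻¹)) (s * ((1 / 2) * ((1 + s ^ 2) ^ 2)⁻¹)) s := by
  have h1 : HasDerivAt (fun s : ℝ => 1 + s ^ 2) (2 * s) s := by
    have := ((hasDerivAt_id s).pow 2).const_add 1
    simpa using this
  have h0 : (1 : ℝ) + s ^ 2 ≠ 0 := by positivity
  have h2 := ((h1.inv h0).const_mul (1 / 4)).neg
  refine h2.congr_deriv ?_
  field_simp
  norm_num

theorem VN0_tend : Tendsto (fun s : ℝ => -((1 / 4) * (1 + s ^ 2)⁻¹)) atTop (𝓝 0) := by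
  have h1 : Tendsto (fun s : ℝ => 1 + s ^ 2) atTop atTop :=
    tendsto_atTop_add_const_left _ _ (tendsto_pow_atTop (by norm_num))
  have h2 := (h1.inv_tendsto_atTop.const_mul (1 / 4)).neg
  simpa using h2

theorem VN0_int : Integrable (fun u : ℂ => (1 / 2) * ((1 + ‖u‖ ^ 2) ^ 2)⁻¹) := by
  have h := integrable_fun_norm_addHaar (μ := (volume : Measure ℂ)) (f := fun s : ℝ => (1 / 2) * ((1 + s ^ 2) ^ 2)⁻¹)
  rw [h]
  have h2 : Module.finrank ℝ ℂ - 1 = 1 := by
    rw [Complex.finrank_real_complex]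
  rw [h2]
  simp only [pow_one, smul_eq_mul]
  exact integrableOn_Ioi_deriv_of_nonneg' (fun x _ => VN0_prim x)
    (fun x hx => by
      have : (0 : ℝ) < x := hx
      positivity) VN0_tend

theorem VN0_mass : ∫ u : ℂ, (1 / 2) * ((1 + ‖u‖ ^ 2) ^ 2)⁻¹ = Real.pi / 2 := by
  have h := integral_fun_norm_addHaar (volume : Measure ℂ) (fun s : ℝ => (1 / 2) * ((1 + s ^ 2) ^ 2)⁻¹)
  rw [h]
  have h2 : Module.finrank ℝ ℂ - 1 = 1 := by
    rw [Complex.finrank_real_complex]
  rw [h2, Complex.finrank_real_complex]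
  simp only [pow_one, smul_eq_mul]
  have h3 := integral_Ioi_of_hasDerivAt_of_nonneg' (a := (0 : ℝ)) (fun x _ => VN0_prim x)
    (fun x hx => by
      have : (0 : ℝ) < x := hx
      positivity) VN0_tend
  rw [h3]
  have h4 : (volume : Measure ℂ).real (ball 0 1) = Real.pi := by
    rw [Measure.real, Complex.volume_ball]
    simp
  rw [h4]
  simp
  ring


/-- the regularised logarithm -/
theorem VN0_reg (ε : ℝ) (hε : 0 < ε) (z : ℂ) :
    ContDiffAt ℝ 2 (fun t : ℂ => (1 / 2) * Real.log (‖t‖ ^ 2 + ε ^ 2)) z ∧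
    lap (fun t : ℂ => (1 / 2) * Real.log (‖t‖ ^ 2 + ε ^ 2)) z = (1 / 2) * (ε ^ 2 / (‖z‖ ^ 2 + ε ^ 2) ^ 2) := by
  have h := INTA_lap (fun t => t) (fun _ => (ε : ℂ)) (fun _ => 0) (fun _ => 0) z (1 / 2) 0 univ isOpen_univ
    (mem_univ z) differentiableOn_id (differentiableOn_const _) (differentiableOn_const _) (differentiableOn_const _)
    (by
      have h1 := Complex.normSq_nonneg z
      simp only [Complex.normSq_ofReal, map_zero]
      positivity)
  have e : (fun t : ℂ => (1 / 2) * Real.log (Complex.normSq t + Complex.normSq (ε : ℂ) + Complex.normSq 0) +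
      0 * (Complex.normSq 0 / (Complex.normSq t + Complex.normSq (ε : ℂ) + Complex.normSq 0))) =
      fun t : ℂ => (1 / 2) * Real.log (‖t‖ ^ 2 + ε ^ 2) := by
    funext t
    rw [zero_mul, add_zero, map_zero, add_zero, Complex.normSq_ofReal, Complex.normSq_eq_norm_sq, ← pow_two]
  rw [e] at h
  refine ⟨h.1, h.2.trans ?_⟩
  simp only [deriv_id'', deriv_const', map_zero, map_one, one_mul, zero_mul, add_zero, Complex.normSq_conj, Complex.normSq_ofReal]
  rw [Complex.normSq_eq_norm_sq]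
  ring

/-- the logarithm is a fundamental solution -/
theorem VN0_fund (χ : ℂ → ℝ) (hχ : ContDiff ℝ 2 χ) (hc : HasCompactSupport χ) :
    ∫ w, Real.log ‖w‖ * lap χ w = (Real.pi / 2) * χ 0 := by
  obtain ⟨l1, -, l3⟩ := INTA_chi hχ (subset_univ _) hc
  set e : ℕ → ℝ := fun n => 1 / ((n : ℝ) + 1) with he
  have hepos : ∀ n, 0 < e n := fun n => by
    rw [he]
    positivity
  have hele : ∀ n, e n ≤ 1 := fun n => by
    rw [he]
    simp only
    rw [div_le_one (by positivity)]
    have : (0 : ℝ) ≤ n := Nat.cast_nonneg n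
    linarith
  have helim : Tendsto e atTop (𝓝 0) := tendsto_one_div_add_atTop_nhds_zero_nat
  -- Green
  have hgreen : ∀ n, ∫ z, χ z * ((1 / 2) * (e n ^ 2 / (‖z‖ ^ 2 + e n ^ 2) ^ 2)) =
      ∫ z, lap χ z * ((1 / 2) * Real.log (‖z‖ ^ 2 + e n ^ 2)) := by
    intro n
    have h1 := MSS_green (h := fun t : ℂ => (1 / 2) * Real.log (‖t‖ ^ 2 + e n ^ 2)) isOpen_univ hχ (subset_univ _) hc
      (fun z _ => (VN0_reg (e n) (hepos n) z).1.contDiffWithinAt)
    rw [← h1]
    refine integral_congr_ae (Eventually.of_forall fun z => ?_)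
    show χ z * _ = χ z * _
    rw [(VN0_reg (e n) (hepos n) z).2]
  -- left hand side
  have hsub : ∀ n, ∫ z, χ z * ((1 / 2) * (e n ^ 2 / (‖z‖ ^ 2 + e n ^ 2) ^ 2)) =
      ∫ u : ℂ, χ (e n • u) * ((1 / 2) * ((1 + ‖u‖ ^ 2) ^ 2)⁻¹) := by
    intro n
    have h1 := Measure.integral_comp_smul (volume : Measure ℂ) (fun z : ℂ => χ z * ((1 / 2) * (e n ^ 2 / (‖z‖ ^ 2 + e n ^ 2) ^ 2))) (e n)
    have h0 := hepos n
    rw [Complex.finrank_real_complex, abs_of_pos (by positivity), smul_eq_mul] at h1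
    have h2 : ∫ z, χ z * ((1 / 2) * (e n ^ 2 / (‖z‖ ^ 2 + e n ^ 2) ^ 2)) =
        e n ^ 2 * ∫ u : ℂ, χ (e n • u) * ((1 / 2) * (e n ^ 2 / (‖e n • u‖ ^ 2 + e n ^ 2) ^ 2)) := by
      rw [h1, ← mul_assoc, mul_inv_cancel₀ (by positivity), one_mul]
    rw [h2, ← integral_const_mul]
    refine integral_congr_ae (Eventually.of_forall fun u => ?_)
    show e n ^ 2 * (χ (e n • u) * ((1 / 2) * (e n ^ 2 / (‖e n • u‖ ^ 2 + e n ^ 2) ^ 2))) = χ (e n • u) * ((1 / 2) * ((1 + ‖u‖ ^ 2) ^ 2)⁻¹)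
    rw [norm_smul, Real.norm_eq_abs, abs_of_pos h0]
    have h3 : (e n * ‖u‖) ^ 2 + e n ^ 2 = e n ^ 2 * (1 + ‖u‖ ^ 2) := by ring
    rw [h3]
    have h4 : (0 : ℝ) < 1 + ‖u‖ ^ 2 := by positivity
    field_simp
  obtain ⟨M, hM⟩ := hc.exists_bound_of_continuous hχ.continuous
  have hL : Tendsto (fun n => ∫ u : ℂ, χ (e n • u) * ((1 / 2) * ((1 + ‖u‖ ^ 2) ^ 2)⁻¹)) atTop
      (𝓝 (∫ u : ℂ, χ 0 * ((1 / 2) * ((1 + ‖u‖ ^ 2) ^ 2)⁻¹))) := by
    refine tendsto_integral_of_dominated_convergence (fun u : ℂ => M * ((1 / 2) * ((1 + ‖u‖ ^ 2) ^ 2)⁻¹)) ?_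
      (VN0_int.const_mul M) ?_ ?_
    · intro n
      have h1 : Continuous (fun u : ℂ => χ (e n • u)) := hχ.continuous.comp (continuous_const_smul (e n))
      exact h1.aestronglyMeasurable.mul VN0_int.aestronglyMeasurable
    · intro n
      refine Eventually.of_forall fun u => ?_
      rw [norm_mul]
      have h1 : (0 : ℝ) ≤ (1 / 2) * ((1 + ‖u‖ ^ 2) ^ 2)⁻¹ := by positivity
      rw [Real.norm_of_nonneg h1]
      exact mul_le_mul_of_nonneg_right (hM _) h1
    · refine Eventually.of_forall fun u => ?_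
      have h1 : Tendsto (fun n => e n • u) atTop (𝓝 0) := by
        have := helim.smul_const u
        simpa using this
      exact ((hχ.continuous.tendsto 0).comp h1).mul_const _
  rw [integral_const_mul, VN0_mass] at hL
  -- right hand side
  have hR : Tendsto (fun n => ∫ z, lap χ z * ((1 / 2) * Real.log (‖z‖ ^ 2 + e n ^ 2))) atTop
      (𝓝 (∫ z, lap χ z * Real.log ‖z‖)) := by
    have hc1 : Continuous fun z : ℂ => (1 / 2) * Real.log (‖z‖ ^ 2 + 1) :=
      continuous_const.mul (Continuous.log ((continuous_norm.pow 2).add continuous_const) fun z => by positivity)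
    have hi1 : Integrable (fun z : ℂ => lap χ z * Real.log ‖z‖) := by
      have h1 := VN0_loc.integrable_smul_left_of_hasCompactSupport l1 l3
      simpa only [smul_eq_mul] using h1
    have hi2 : Integrable (fun z : ℂ => lap χ z * ((1 / 2) * Real.log (‖z‖ ^ 2 + 1))) :=
      Continuous.integrable_of_hasCompactSupport (l1.mul hc1) l3.mul_right
    refine tendsto_integral_of_dominated_convergence
      (fun z : ℂ => |lap χ z * Real.log ‖z‖| + |lap χ z * ((1 / 2) * Real.log (‖z‖ ^ 2 + 1))|) ?_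
      (hi1.abs.add hi2.abs) ?_ ?_
    · intro n
      have h1 : Continuous fun z : ℂ => (1 / 2) * Real.log (‖z‖ ^ 2 + e n ^ 2) :=
        continuous_const.mul (Continuous.log ((continuous_norm.pow 2).add continuous_const) fun z => by
          have := hepos n
          positivity)
      exact (l1.mul h1).aestronglyMeasurable
    · intro n
      have hne : ∀ᵐ z : ℂ, z ≠ 0 := by
        rw [ae_iff]
        have : {z : ℂ | ¬ z ≠ 0} = {0} := by
          ext z
          simp
        rw [this]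
        exact measure_singleton 0
      filter_upwards [hne] with z hz
      have hz0 : 0 < ‖z‖ := norm_pos_iff.2 hz
      have h0 := hepos n
      have h1 := hele n
      rw [abs_mul, abs_mul, norm_mul, Real.norm_eq_abs, Real.norm_eq_abs, ← mul_add]
      refine mul_le_mul_of_nonneg_left ?_ (abs_nonneg _)
      have h2 : Real.log ‖z‖ ≤ (1 / 2) * Real.log (‖z‖ ^ 2 + e n ^ 2) := by
        have h3 : Real.log (‖z‖ ^ 2) ≤ Real.log (‖z‖ ^ 2 + e n ^ 2) :=
          Real.log_le_log (by positivity) (by nlinarith)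
        rw [Real.log_pow] at h3
        push_cast at h3
        linarith
      have h4 : (1 / 2) * Real.log (‖z‖ ^ 2 + e n ^ 2) ≤ (1 / 2) * Real.log (‖z‖ ^ 2 + 1) := by
        have h3 : Real.log (‖z‖ ^ 2 + e n ^ 2) ≤ Real.log (‖z‖ ^ 2 + 1) :=
          Real.log_le_log (by positivity) (by nlinarith)
        linarith
      rw [abs_le]
      have h5 := neg_abs_le (Real.log ‖z‖)
      have h6 := le_abs_self ((1 / 2) * Real.log (‖z‖ ^ 2 + 1))
      have h7 := abs_nonneg (Real.log ‖z‖)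
      have h8 := abs_nonneg ((1 / 2) * Real.log (‖z‖ ^ 2 + 1))
      constructor <;> linarith
    · have hne : ∀ᵐ z : ℂ, z ≠ 0 := by
        rw [ae_iff]
        have : {z : ℂ | ¬ z ≠ 0} = {0} := by
          ext z
          simp
        rw [this]
        exact measure_singleton 0
      filter_upwards [hne] with z hz
      have hz0 : 0 < ‖z‖ := norm_pos_iff.2 hz
      have h1 : Tendsto (fun n => ‖z‖ ^ 2 + e n ^ 2) atTop (𝓝 (‖z‖ ^ 2 + 0 ^ 2)) :=
        tendsto_const_nhds.add (helim.pow 2)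
      have h2 := ((h1.log (by positivity)).const_mul (1 / 2)).const_mul (lap χ z)
      have h3 : (1 / 2) * Real.log (‖z‖ ^ 2 + 0 ^ 2) = Real.log ‖z‖ := by
        rw [zero_pow (by norm_num), add_zero, Real.log_pow]
        push_cast
        ring
      rw [h3] at h2
      exact h2
  have hL2 : Tendsto (fun n => ∫ z, lap χ z * ((1 / 2) * Real.log (‖z‖ ^ 2 + e n ^ 2))) atTop
      (𝓝 (χ 0 * (Real.pi / 2))) := by
    refine hL.congr fun n => ?_
    rw [← hsub n, hgreen n]
  have h := tendsto_nhds_unique hR hL2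
  have h2 : ∫ w, Real.log ‖w‖ * lap χ w = ∫ z, lap χ z * Real.log ‖z‖ := by
    refine integral_congr_ae (Eventually.of_forall fun z => ?_)
    show Real.log ‖z‖ * lap χ z = lap χ z * Real.log ‖z‖
    ring
  rw [h2, h]
  ring

theorem VN0_lapΔ (g : ℂ → ℝ) (z : ℂ) : lap g z = (1 / 4) * (Laplacian.laplacian g : ℂ → ℝ) z := by
  rw [InnerProductSpace.laplacian_eq_iteratedFDeriv_complexPlane]
  rfl

theorem VN0_lap_const_mul (c : ℝ) (g : ℂ → ℝ) (z : ℂ) (hg : ContDiff ℝ 2 g) :
    lap (fun z => c * g z) z = c * lap g z := by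
  have h1 : ∀ v w : ℂ, fderiv ℝ (fun z => c * g z) w v = c * fderiv ℝ g w v := by
    intro v w
    have h := ((hg.differentiable (by norm_num) w).hasFDerivAt.const_mul c).fderiv
    rw [h]
    rfl
  have h2 : ∀ v w : ℂ, fderiv ℝ (fun w => c * fderiv ℝ g w v) w v = c * fderiv ℝ (fun w => fderiv ℝ g w v) w v := by
    intro v w
    have h3 : ContDiff ℝ 1 (fun w => fderiv ℝ g w v) := (hg.fderiv_right (by norm_num)).clm_apply contDiff_const
    have h := ((h3.differentiable (by norm_num) w).hasFDerivAt.const_mul c).fderiv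
    rw [h]
    rfl
  rw [MSS_lap hg.contDiffAt, MSS_lap (contDiff_const.mul hg).contDiffAt]
  simp only [h1, h2]
  ring

theorem VN0 : VN0_stmt := by
  intro ρ hρ hc
  have e0 : (fun z => ∫ w, Real.log ‖w‖ * ρ (z - w)) =
      convolution (fun w : ℂ => Real.log ‖w‖) ρ (ContinuousLinearMap.lsmul ℝ ℝ) volume := by
    funext z
    rw [convolution_lsmul]
    rfl
  have hC : ContDiff ℝ ∞ (fun z => ∫ w, Real.log ‖w‖ * ρ (z - w)) := by
    rw [e0]
    exact hc.contDiff_convolution_right (ContinuousLinearMap.lsmul ℝ ℝ) VN0_loc hρ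
  refine ⟨contDiff_const.mul hC, fun z => ?_⟩
  have hC2 : ContDiff ℝ 2 (fun z => ∫ w, Real.log ‖w‖ * ρ (z - w)) := hC.of_le (WithTop.coe_le_coe.2 (le_top : (2 : ℕ∞) ≤ ⊤))
  have h1 : lap (fun z => (2 / Real.pi) * ∫ w, Real.log ‖w‖ * ρ (z - w)) z =
      (2 / Real.pi) * lap (fun z => ∫ w, Real.log ‖w‖ * ρ (z - w)) z := VN0_lap_const_mul _ _ z hC2
  have h2 : lap (fun z => ∫ w, Real.log ‖w‖ * ρ (z - w)) z = ∫ t, Real.log ‖t‖ * lap (fun b => ρ (z - b)) t := by
    rw [e0, VN0_lapΔ, SWE_conv _ ρ VN0_loc hρ hc z, ← integral_const_mul]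
    refine integral_congr_ae (Eventually.of_forall fun t => ?_)
    show (1 / 4) * (Real.log ‖t‖ * _) = Real.log ‖t‖ * lap (fun b => ρ (z - b)) t
    rw [VN0_lapΔ]
    ring
  have hχ : ContDiff ℝ 2 (fun b => ρ (z - b)) := (hρ.comp (contDiff_const.sub contDiff_id)).of_le (WithTop.coe_le_coe.2 (le_top : (2 : ℕ∞) ≤ ⊤))
  have hcχ : HasCompactSupport (fun b => ρ (z - b)) := by
    have := hc.comp_homeomorph (Homeomorph.subLeft z)
    exact this
  rw [h1, h2, VN0_fund _ hχ hcχ]
  have hp := Real.pi_ne_zero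
  simp only [sub_zero]
  field_simp

end Pool.Agent.P2V
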